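import Pool.Agent.helper3.XT.Spec

/-!
# Project xt (MP_51d945_co), row PRT: hosts with large degree contain `M` or its dual
-/

set_option autoImplicit false

namespace Pool.Agent.XT

open Finset SimpleGraph

/-- **PRT** -/
theorem PRT (hLMT : LMT_stmt) (hTGF : TGF_stmt) (hGFT : GFT_stmt) (hCLN : CLN_stmt) (hDGX : DGX_stmt)
    (hFNM : FNM_stmt) (hDUA : DUA_stmt) (hARI : ARI_stmt) (hMMO : MMO_stmt) : PRT_stmt := by
  classical
  intro κ hκ
  obtain ⟨C1, r, hr, h1⟩ := hLMT κ hκ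
  obtain ⟨C2, h2⟩ := hTGF r hr
  obtain ⟨C3, r3, hr3, h3⟩ := hLMT (r / 8) (by positivity)
  refine ⟨max (max C1 C3) ((max 1 C2) ^ 13), fun n D B hH hC => ?_⟩
  by_contra hcon
  rw [not_or] at hcon
  obtain ⟨hM, hMs⟩ := hcon
  have hn4 : (0 : ℝ) ≤ (n : ℝ) ^ 4 := by positivity
  have hnpos : (0 : ℝ) < n := by exact_mod_cast hH.n0
  have hD0 := hH.d0
  have k1 : C1 * (n : ℝ) ^ 4 ≤ D ^ 13 :=
    (mul_le_mul_of_nonneg_right ((le_max_left _ _).trans (le_max_left _ _)) hn4).trans hC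
  have k3 : C3 * (n : ℝ) ^ 4 ≤ D ^ 13 :=
    (mul_le_mul_of_nonneg_right ((le_max_right _ _).trans (le_max_left _ _)) hn4).trans hC
  have k2 : (max 1 C2) ^ 13 * (n : ℝ) ^ 4 ≤ D ^ 13 :=
    (mul_le_mul_of_nonneg_right (le_max_right _ _) hn4).trans hC
  have hC2D : C2 ≤ D := (le_max_right 1 C2).trans (hARI _ D n (le_max_left _ _) hH.n0 hD0 k2).1
  have hgood : r * n * D ^ 2 ≤ ((GoodS B).card : ℝ) := (h1 n D B hH k1).resolve_left hM
  have hGF := h2 n D B hD0 hH.pu hH.lu hC2D hgood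
  obtain ⟨hGB, hGT⟩ := hGFT n B
  obtain ⟨B', hB', hB'c, hdeg⟩ := hCLN n (GF B) (r / 8 * D) (by positivity)
  obtain ⟨_, _, _, _, _, _, hsub, _⟩ := hDUA n B
  obtain ⟨hs1, hs2, hs3, hs4⟩ := hsub B' (hB'.trans hGB)
  have hHost : Host (r / 8) D B' := by
    refine ⟨hH.n0, hD0, fun p => ?_, fun l => ?_, fun p l hpl => (hdeg p l hpl).1,
      fun p l hpl => (hdeg p l hpl).2, ?_, hs2 hH.g8⟩
    · exact (Nat.cast_le.2 (Finset.card_le_card (hs3 p))).trans (hH.pu p)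
    · exact (Nat.cast_le.2 (Finset.card_le_card (hs4 l))).trans (hH.lu l)
    · have h5 : 0 < r * n * D := by positivity
      nlinarith
  have hHost' : Host (r / 8) D (sw B') := (hDUA n B').2.2.2.2.2.2.2 _ _ hHost
  have hMs' : ¬ HasM (sw B') := fun h =>
    hMs (hMMO n n (sw B') (sw B) (Function.Embedding.refl _) (Function.Embedding.refl _)
      (fun p l hpl => hs1 hpl) h)
  have hgood' : r3 * n * D ^ 2 ≤ ((GoodS (sw B')).card : ℝ) := (h3 n D (sw B') hHost' k3).resolve_left hMs'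
  have hpos : 0 < (GoodS (sw B')).card := by
    have h5 : (0 : ℝ) < r3 * n * D ^ 2 := by positivity
    exact_mod_cast h5.trans_le hgood'
  obtain ⟨e, he⟩ := Finset.card_pos.1 hpos
  have he' : Good (sw B') e.1 e.2.1 e.2.2 := by
    unfold GoodS at he
    rw [mem_filter] at he
    exact he.2
  obtain ⟨a, b, X, hab, hX, hinc⟩ := hDGX n B' e.1 e.2.1 e.2.2 he'
  exact hM (hFNM n B a b X hab hX (fun i j => hGT _ _ (hB' (hinc i j).1))
    (fun i j => hGT _ _ (hB' (hinc i j).2)))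

end Pool.Agent.XT
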