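import Pool.Agent.helper3.XT.Spec

/-!
# Project xt (MP_51d945_co), row UPF: the upper bound for sets of flags
-/

set_option autoImplicit false

namespace Pool.Agent.XT

open Finset SimpleGraph

theorem UPF_rpow {n : ℕ} (hn : 0 < n) : (n : ℝ) * (n : ℝ) ^ (4 / 13 : ℝ) = (n : ℝ) ^ (17 / 13 : ℝ) := by
  have h : (0 : ℝ) < n := by exact_mod_cast hn
  nth_rewrite 1 [← Real.rpow_one (n : ℝ)]
  rw [← Real.rpow_add h]
  norm_num

theorem UPF_pow13 {n : ℕ} : ((n : ℝ) ^ (4 / 13 : ℝ)) ^ 13 = (n : ℝ) ^ 4 := by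
  rw [← Real.rpow_natCast, ← Real.rpow_mul (Nat.cast_nonneg n)]
  have : (4 / 13 : ℝ) * ((13 : ℕ) : ℝ) = ((4 : ℕ) : ℝ) := by norm_num
  rw [this, Real.rpow_natCast]

theorem UPF_mem_dP {n : ℕ} {B : FS n} {p l : Fin n} : l ∈ dP B p ↔ (p, l) ∈ B := by
  unfold dP
  rw [mem_filter]
  exact and_iff_right (mem_univ _)

theorem UPF_mem_dL {n : ℕ} {B : FS n} {p l : Fin n} : p ∈ dL B l ↔ (p, l) ∈ B := by
  unfold dL
  rw [mem_filter]
  exact and_iff_right (mem_univ _)

/-- the heavy lines, from the heavy points of `sw B` -/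
theorem UPF_swap (hDUA : DUA_stmt) {n : ℕ} (B : FS n) (D : ℝ) :
    (B.filter (fun e => D < ((dL B e.2).card : ℝ))).card ≤
      ((sw B).filter (fun e => D < ((dP (sw B) e.1).card : ℝ))).card := by
  obtain ⟨_, _, h3, h4, _, _⟩ := hDUA n B
  refine Finset.card_le_card_of_injOn Prod.swap ?_ (Prod.swap_injective.injOn)
  rintro ⟨p, l⟩ hpl
  obtain ⟨h5, h6⟩ := mem_filter.1 (Finset.mem_coe.1 hpl)
  refine Finset.mem_coe.2 (mem_filter.2 ⟨(h3 l p).2 h5, ?_⟩)
  show D < ((dP (sw B) l).card : ℝ)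
  rw [h4 l]
  exact h6

/-- **UPF** -/
theorem UPF (hPRT : PRT_stmt) (hHVY : HVY_stmt) (hCLN : CLN_stmt) (hADM : ADM_stmt)
    (hDUA : DUA_stmt) : UPF_stmt := by
  obtain ⟨C0, hC0⟩ := hPRT (1 / 2 ^ 17) (by positivity)
  set C : ℝ := max 1 C0 with hC
  have hC1 : 1 ≤ C := le_max_left _ _
  have hC01 : C0 ≤ C := le_max_right _ _
  have hCpos : 0 < C := by linarith
  refine ⟨C, hCpos, fun n => ?_⟩
  induction n using Nat.strong_induction_on with
  | _ n ih =>
    intro B hB
    rcases Nat.eq_zero_or_pos n with hn | hn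
    · subst hn
      have hB0 : B = ∅ := Finset.eq_empty_of_isEmpty B
      rw [hB0, Finset.card_empty]
      have : (0 : ℝ) ≤ C * ((0 : ℕ) : ℝ) ^ (17 / 13 : ℝ) :=
        mul_nonneg hCpos.le (Real.rpow_nonneg (Nat.cast_nonneg 0) _)
      exact_mod_cast this
    by_contra hcon
    rw [not_le] at hcon
    have hnpos : (0 : ℝ) < n := by exact_mod_cast hn
    have hn1 : (1 : ℝ) ≤ n := by exact_mod_cast hn
    set a : ℝ := (n : ℝ) ^ (17 / 13 : ℝ) with ha
    set b : ℝ := (n : ℝ) ^ (4 / 13 : ℝ) with hb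
    have ha1 : 1 ≤ a := Real.one_le_rpow hn1 (by norm_num)
    have hb1 : 1 ≤ b := Real.one_le_rpow hn1 (by norm_num)
    have hnb : (n : ℝ) * b = a := UPF_rpow hn
    have hCa : 1 ≤ C * a := by nlinarith
    -- the subset
    have ht : ⌈C * a⌉₊ ≤ B.card := Nat.ceil_le.2 hcon.le
    obtain ⟨B0, hB0, hB0c⟩ := Finset.exists_subset_card_eq ht
    have hc1 : C * a ≤ (B0.card : ℝ) := by
      rw [hB0c]
      exact Nat.le_ceil _
    have hc2 : (B0.card : ℝ) ≤ 2 * C * a := by
      rw [hB0c]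
      have := Nat.ceil_lt_add_one (show 0 ≤ C * a by linarith)
      linarith
    have hA0 : Adm B0 := (hADM n n (Function.Embedding.refl _) (Function.Embedding.refl _) B hB).1 B0 hB0
    have hA0s : Adm (sw B0) := (hADM n n (Function.Embedding.refl _) (Function.Embedding.refl _) B0 hA0).2.1
    have hsc : (sw B0).card = B0.card := (hDUA n B0).2.1
    have hih : ∀ m < n, ∀ B' : FS m, Adm B' → (B'.card : ℝ) ≤ C * (m : ℝ) ^ (17 / 13 : ℝ) := ih
    have hv1 := hHVY n C B0 hn hC1 hA0 hih hc2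
    have hv2 := hHVY n C (sw B0) hn hC1 hA0s hih (by rw [hsc]; exact hc2)
    rw [← ha, ← hb] at hv1 hv2
    set D : ℝ := 2 ^ 14 * C * b with hD
    have hD0 : 0 < D := by positivity
    have hv3 : ((B0.filter (fun e => D < ((dL B0 e.2).card : ℝ))).card : ℝ) ≤ C * a / 8 :=
      (Nat.cast_le.2 (UPF_swap hDUA B0 D)).trans hv2
    set B1 : FS n := B0.filter (fun e => ((dP B0 e.1).card : ℝ) ≤ D ∧ ((dL B0 e.2).card : ℝ) ≤ D) with hB1
    have hcov : B0 ⊆ B1 ∪ (B0.filter (fun e => D < ((dP B0 e.1).card : ℝ)) ∪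
        B0.filter (fun e => D < ((dL B0 e.2).card : ℝ))) := by
      intro e he
      by_cases h1 : ((dP B0 e.1).card : ℝ) ≤ D
      · by_cases h2 : ((dL B0 e.2).card : ℝ) ≤ D
        · exact mem_union_left _ (mem_filter.2 ⟨he, h1, h2⟩)
        · exact mem_union_right _ (mem_union_right _ (mem_filter.2 ⟨he, not_le.1 h2⟩))
      · exact mem_union_right _ (mem_union_left _ (mem_filter.2 ⟨he, not_le.1 h1⟩))
    have hcard : (B0.card : ℝ) ≤ (B1.card : ℝ) + (((B0.filter (fun e => D < ((dP B0 e.1).card : ℝ))).card : ℝ) +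
        ((B0.filter (fun e => D < ((dL B0 e.2).card : ℝ))).card : ℝ)) := by
      have h1 := (Finset.card_le_card hcov).trans (Finset.card_union_le _ _)
      have h2 := Finset.card_union_le (B0.filter (fun e => D < ((dP B0 e.1).card : ℝ)))
        (B0.filter (fun e => D < ((dL B0 e.2).card : ℝ)))
      exact_mod_cast h1.trans (Nat.add_le_add_left h2 _)
    have hB1c : 3 / 4 * (C * a) ≤ (B1.card : ℝ) := by linarith
    -- cleaning
    obtain ⟨B2, hB2, hB2c, hdeg⟩ := hCLN n B1 (C * b / 8) (by positivity)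
    have hB2c' : C * a / 2 ≤ (B2.card : ℝ) := by
      have : 2 * (n : ℝ) * (C * b / 8) = C * a / 4 := by
        rw [← hnb]
        ring
      rw [this] at hB2c
      linarith
    have hB20 : B2 ⊆ B0 := hB2.trans (Finset.filter_subset _ _)
    have hA2 : Adm B2 := (hADM n n (Function.Embedding.refl _) (Function.Embedding.refl _) B0 hA0).1 B2 hB20
    have hκD : 1 / 2 ^ 17 * D = C * b / 8 := by
      rw [hD]
      ring
    have hHost : Host (1 / 2 ^ 17) D B2 := by
      refine ⟨hn, hD0, fun p => ?_, fun l => ?_, fun p l hpl => ?_, fun p l hpl => ?_, ?_, hA2.1⟩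
      · rcases (dP B2 p).eq_empty_or_nonempty with h | ⟨l, hl⟩
        · rw [h, Finset.card_empty]
          exact_mod_cast hD0.le
        · have h1 := (mem_filter.1 (hB2 (UPF_mem_dP.1 hl))).2.1
          have h2 : dP B2 p ⊆ dP B0 p := fun l' hl' => UPF_mem_dP.2 (hB20 (UPF_mem_dP.1 hl'))
          exact (Nat.cast_le.2 (Finset.card_le_card h2)).trans h1
      · rcases (dL B2 l).eq_empty_or_nonempty with h | ⟨p, hp⟩
        · rw [h, Finset.card_empty]
          exact_mod_cast hD0.le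
        · have h1 := (mem_filter.1 (hB2 (UPF_mem_dL.1 hp))).2.2
          have h2 : dL B2 l ⊆ dL B0 l := fun p' hp' => UPF_mem_dL.2 (hB20 (UPF_mem_dL.1 hp'))
          exact (Nat.cast_le.2 (Finset.card_le_card h2)).trans h1
      · rw [hκD]
        exact (hdeg p l hpl).1
      · rw [hκD]
        exact (hdeg p l hpl).2
      · have : 1 / 2 ^ 17 * (n : ℝ) * D = C * a / 8 := by
          rw [mul_right_comm, hκD, ← hnb]
          ring
        rw [this]
        linarith
    have hDpow : C0 * (n : ℝ) ^ 4 ≤ D ^ 13 := by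
      have h1 : D ^ 13 = (2 ^ 14) ^ 13 * C ^ 13 * (n : ℝ) ^ 4 := by
        rw [hD, mul_pow, mul_pow, hb, UPF_pow13]
      rw [h1]
      refine mul_le_mul_of_nonneg_right ?_ (by positivity)
      have h2 : C ≤ C ^ 13 := le_self_pow₀ hC1 (by norm_num)
      have h3 : 1 * C ^ 13 ≤ (2 ^ 14) ^ 13 * C ^ 13 :=
        mul_le_mul_of_nonneg_right (by norm_num) (by positivity)
      linarith
    rcases hC0 n D B2 hHost hDpow with h | h
    · exact hA2.2.1 h
    · exact hA2.2.2 h

end Pool.Agent.XT
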